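import Pool.Agent.NNe.Chk
import Pool.Agent.NNe.Slots

set_option linter.all false
set_option maxRecDepth 1000000
namespace Pool.Agent.NNr.R11_4_11_13

open Pool.Agent.NNe

noncomputable def SI0_0 : Nat := (nat_lit 0x300c0300c0300c0300c03008020080200801004010040000000)
noncomputable def SW0_0 : Nat := (nat_lit 0x14009804801600600280100040010088028012003000004001e00e0040034018007)
noncomputable def RV0_0 : Nat := (nat_lit 0x28a00920400818200b0880da08801318201010000428a00b08801708804e20401618202108804a08803d08807318203010000e0880d428a01908808f08809d)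
noncomputable def CO0_0 : Nat := (nat_lit 0x2a80502a80202a80102a7440288840288810288800280c50280c40269c40265420265410249c40241c400aa0400aa0100aa0000a744002b05002b04002744)
noncomputable def Y0_0_1_0 : Nat := (nat_lit 0x70000000000001000000000000300000000000030000000000003000000000000000000000000070000000000003)
noncomputable def Y0_0_2_3 : Nat := (nat_lit 0x1ff000000000007900000000000350000000000000000000000007d000000000007900000000001e0000000000006000000000001e00000000000060)
noncomputable def C0_0 : Cd := (Cd.mk (nat_lit 21) (nat_lit 5) (nat_lit 1025) SI0_0 SW0_0 RV0_0 CO0_0 (Sl.cons (Sd.mk (nat_lit 0) (nat_lit 0) (nat_lit 0) (nat_lit 3) (Sb.cons (nat_lit 8) (nat_lit 0) (nat_lit 3) Sb.nil) (Bl.c Y0_0_1_0 (nat_lit 8) (nat_lit 1) Bl.nil)) (Sl.cons (Sd.mk (nat_lit 2) (nat_lit 0) (nat_lit 3) (nat_lit 4) (Sb.cons (nat_lit 8) (nat_lit 0) (nat_lit 4) Sb.nil) (Bl.r Y0_0_1_0 (nat_lit 0) Bl.nil)) (Sl.cons (Sd.mk (nat_lit 9) (nat_lit 8) (nat_lit 7) (nat_lit 5) (Sb.cons (nat_lit 0) (nat_lit 0) (nat_lit 2) (Sb.cons (nat_lit 8)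 (nat_lit 2) (nat_lit 3) Sb.nil)) (Bl.r Y0_0_2_3 (nat_lit 3) Bl.nil)) (Sl.cons (Sd.mk (nat_lit 10) (nat_lit 8) (nat_lit 12) (nat_lit 9) (Sb.cons (nat_lit 0) (nat_lit 0) (nat_lit 5) (Sb.cons (nat_lit 8) (nat_lit 5) (nat_lit 4) Sb.nil)) (Bl.c Y0_0_2_3 (nat_lit 10) (nat_lit 2) Bl.nil)) Sl.nil)))))
noncomputable def SI0_1 : Nat := (nat_lit 0x140501405014050140501405014050100401004010040100400c0300c0300c0300c03008020080200802008020080200801004010040100401004010000000000000000000000000)
noncomputable def SW0_1 : Nat := (nat_lit 0x7203801b80b404a01d00e0048022010004802006c02c015809004601b007801c06a02a014808804201a0070018068033014008003201800b803400a00400180c8062030013807c02c00c005800805e02e013007802a0140098028002000)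
noncomputable def RV0_1 : Nat := (nat_lit 0x28a00a20400918200c0880db0880e428a00e08801b08801418201110000528a00c08801808804f20401718202208803918202308804108804b08803e08806a08805718202918202b10000908805e08806608805a28a01d0880950880a30880ae28a0002040001820000880b808800020400318200308807418203110000f0880d50880de08807e18203710001208807a28a01a08809008809e0880a8888027a0400c9820130880b2a04010982017)
noncomputable def CO0_1 : Nat := (nat_lit 0x2a80502a80202a80102a7440297840290c50290c40288840288810288800280c50280c40269c40265420265410255840255810251c40249c40241c4016ac40166440166410156810156800152c4014ac40142c4012b05012b04012744011784011005011002011001010b8401004401004201004100aa0400aa0100aa0000a7440097840092c4008a81008a800082c4002b05002b04002744001784001104001102001101000b84000142000141)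
noncomputable def Y0_1_1_0 : Nat := (nat_lit 0x1ff000000000001200000000001e4000000000000000000000001ed000000000004800000000001ff000000000000000000000001ff000000000002000000000001ff000000000000000000000001e0000000000000000000000001e8000000000004800000000001f80000000000000)
noncomputable def Y0_1_2_3 : Nat := (nat_lit 0xff000000000000800000000000ff000000000000800000000000e300000000000c30000000000000000000000000000000000000c3000000000004000000000000c3000000000000000000000000ff000000000000800000000000ff000000000000800000000000c7000000000004000000000000cf0000000000008)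
noncomputable def Y0_1_4_5 : Nat := (nat_lit 0xbd000000000000000000000000b1000000000003100000000000b5000000000000000000000007bd000000000040400000000001b5000000000000000000000007bd000000000040000000000007bd000000000040000000000007bd0000000000400)
noncomputable def C0_1 : Cd := (Cd.mk (nat_lit 58) (nat_lit 6) (nat_lit 546) SI0_1 SW0_1 RV0_1 CO0_1 (Sl.cons (Sd.mk (nat_lit 0) (nat_lit 0) (nat_lit 0) (nat_lit 10) (Sb.cons (nat_lit 0) (nat_lit 0) (nat_lit 3) (Sb.cons (nat_lit 4) (nat_lit 3) (nat_lit 4) (Sb.cons (nat_lit 8) (nat_lit 7) (nat_lit 3) Sb.nil))) (Bl.c Y0_1_1_0 (nat_lit 18) (nat_lit 1) Bl.nil)) (Sl.cons (Sd.mk (nat_lit 2) (nat_lit 0) (nat_lit 10) (nat_lit 9) (Sb.cons (nat_lit 0) (nat_lit 0) (nat_lit 3) (Sb.cons (nat_lit 4) (nat_lit 3) (nat_lit 2) (Sb.cons (nat_lit 8) (nat_lit 5) (nat_lit 4) Sb.nil))) (Bl.r Y0_1_1_0 (nat_lit 0) Bl.nil)) (Sl.cons (Sd.mk (nat_lit 4) (nat_lit 4) (nat_lit 19) (nat_lit 11) (Sb.cons (nat_lit 0) (nat_lit 0) (nat_lit 4) (Sb.cons (nat_lit 4) (nat_lit 4) (nat_lit 4) (Sb.cons (nat_lit 8)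 (nat_lit 8) (nat_lit 3) Sb.nil))) (Bl.r Y0_1_2_3 (nat_lit 3) Bl.nil)) (Sl.cons (Sd.mk (nat_lit 5) (nat_lit 4) (nat_lit 30) (nat_lit 8) (Sb.cons (nat_lit 0) (nat_lit 0) (nat_lit 2) (Sb.cons (nat_lit 4) (nat_lit 2) (nat_lit 3) (Sb.cons (nat_lit 8) (nat_lit 5) (nat_lit 3) Sb.nil))) (Bl.c Y0_1_2_3 (nat_lit 22) (nat_lit 2) Bl.nil)) (Sl.cons (Sd.mk (nat_lit 9) (nat_lit 8) (nat_lit 38) (nat_lit 8) (Sb.cons (nat_lit 0) (nat_lit 0) (nat_lit 2) (Sb.cons (nat_lit 4) (nat_lit 2) (nat_lit 3) (Sb.cons (nat_lit 8) (nat_lit 5) (nat_lit 3) Sb.nil))) (Bl.r Y0_1_4_5 (nat_lit 5) Bl.nil)) (Sl.cons (Sd.mk (nat_lit 10) (nat_lit 8) (nat_lit 46) (nat_lit 12) (Sb.cons (nat_lit 0) (nat_lit 0) (nat_lit 5) (Sb.cons (nat_lit 4) (nat_lit 5) (nat_lit 3) (Sb.cons (nat_lit 8) (nat_lit 8) (nat_lit 4) Sb.nil))) (Bl.c Y0_1_4_5 (nat_lit 16) (nat_lit 4) Bl.nil)) Sl.nil)))))))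
noncomputable def SI0_2 : Nat := (nat_lit 0xc0300c0300c02008020080200802004010040100400000000000000000)
noncomputable def SW0_2 : Nat := (nat_lit 0xb805802400b0030054022010005001400800300a003c012008001004c01c00d006001c002000)
noncomputable def RV0_2 : Nat := (nat_lit 0x18202c10000a08805f08806708805b0880af2040011820010880b90880012040041820040880df08807f18203810001308807b0880a9888028a0400d9820140880b3a04011982018)
noncomputable def CO0_2 : Nat := (nat_lit 0x156810156800152c4014ac40142c4011784011002011001010b840100440100420100410097840092c4008a81008a800082c4001784001104001102001101000b84000142000141)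
noncomputable def Y0_2_1_0 : Nat := (nat_lit 0x6d0000000000020000000000006d000000000004d0000000000064000000000002000000000000640000000000000000000000006d000000000004d)
noncomputable def Y0_2_2_3 : Nat := (nat_lit 0x1f00000000000070000000000000000000000000000000000000070000000000007000000000001f0000000000007000000000001f00000000000170000000000000000000000000000000000000070000000000007)
noncomputable def C0_2 : Cd := (Cd.mk (nat_lit 24) (nat_lit 7) (nat_lit 67) SI0_2 SW0_2 RV0_2 CO0_2 (Sl.cons (Sd.mk (nat_lit 0) (nat_lit 0) (nat_lit 0) (nat_lit 7) (Sb.cons (nat_lit 0) (nat_lit 0) (nat_lit 3) (Sb.cons (nat_lit 4) (nat_lit 3) (nat_lit 4) Sb.nil)) (Bl.c Y0_2_1_0 (nat_lit 10) (nat_lit 1) Bl.nil)) (Sl.cons (Sd.mk (nat_lit 2) (nat_lit 0) (nat_lit 7) (nat_lit 5) (Sb.cons (nat_lit 0) (nat_lit 0) (nat_lit 3) (Sb.cons (nat_lit 4) (nat_lit 3) (nat_lit 2) Sb.nil)) (Bl.r Y0_2_1_0 (nat_lit 0) Bl.nil)) (Sl.cons (Sd.mk (nat_lit 4) (nat_lit 4) (nat_lit 12) (nat_lit 7) (Sb.cons (nat_lit 0) (nat_lit 0) (nat_lit 4) (Sb.cons (nat_lit 4)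 (nat_lit 4) (nat_lit 3) Sb.nil)) (Bl.r Y0_2_2_3 (nat_lit 3) Bl.nil)) (Sl.cons (Sd.mk (nat_lit 5) (nat_lit 4) (nat_lit 19) (nat_lit 5) (Sb.cons (nat_lit 0) (nat_lit 0) (nat_lit 2) (Sb.cons (nat_lit 4) (nat_lit 2) (nat_lit 3) Sb.nil)) (Bl.c Y0_2_2_3 (nat_lit 14) (nat_lit 2) Bl.nil)) Sl.nil)))))
noncomputable def SI0_3 : Nat := (nat_lit 0x140501405010040100400c0300c0300802008020040100401004000000000000)
noncomputable def SW0_3 : Nat := (nat_lit 0x2200d004801002000c004000c0320150038008030014003000402e013007802c0000160090038014005)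
noncomputable def RV0_3 : Nat := (nat_lit 0x880e508801c08801508801908803a08804208804c08803f08806b08805808806808805c0880960880a40880ba0880020880750880d60880e008808008807c08809108809f0880aa8880290880b4)
noncomputable def CO0_3 : Nat := (nat_lit 0x297840290c40288840280c40255840251c40249c40241c4016ac4016644014ac40142c4012b04012744010b8401004400aa0400a7440097840092c40082c4002b04002744001784001104000b84)
noncomputable def C0_3 : Cd := (Cd.mk (nat_lit 26) (nat_lit 10) (nat_lit 280) SI0_3 SW0_3 RV0_3 CO0_3 (Sl.cons (Sd.mk (nat_lit 0) (nat_lit 0) (nat_lit 0) (nat_lit 5) (Sb.cons (nat_lit 0) (nat_lit 0) (nat_lit 1) (Sb.cons (nat_lit 4) (nat_lit 1) (nat_lit 2) (Sb.cons (nat_lit 8) (nat_lit 3) (nat_lit 2) Sb.nil))) Bl.nil) (Sl.cons (Sd.mk (nat_lit 2) (nat_lit 0) (nat_lit 5) (nat_lit 5) (Sb.cons (nat_lit 0) (nat_lit 0) (nat_lit 1) (Sb.cons (nat_lit 4) (nat_lit 1) (nat_lit 2) (Sb.cons (nat_lit 8) (nat_lit 3) (nat_lit 2) Sb.nil))) Bl.nil) (Sl.cons (Sd.mk (nat_lit 4) (nat_lit 4) (nat_lit 10) (nat_lit 4) (Sb.cons (nat_lit 0) (nat_lit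 0) (nat_lit 2) (Sb.cons (nat_lit 8) (nat_lit 2) (nat_lit 2) Sb.nil)) Bl.nil) (Sl.cons (Sd.mk (nat_lit 5) (nat_lit 4) (nat_lit 14) (nat_lit 4) (Sb.cons (nat_lit 0) (nat_lit 0) (nat_lit 2) (Sb.cons (nat_lit 8) (nat_lit 2) (nat_lit 2) Sb.nil)) Bl.nil) (Sl.cons (Sd.mk (nat_lit 9) (nat_lit 8) (nat_lit 18) (nat_lit 4) (Sb.cons (nat_lit 0) (nat_lit 0) (nat_lit 2) (Sb.cons (nat_lit 4) (nat_lit 2) (nat_lit 2) Sb.nil)) Bl.nil) (Sl.cons (Sd.mk (nat_lit 10) (nat_lit 8) (nat_lit 22) (nat_lit 4) (Sb.cons (nat_lit 0) (nat_lit 0) (nat_lit 2) (Sb.cons (nat_lit 4) (nat_lit 2) (nat_lit 2) Sb.nil)) Bl.nil) Sl.nil)))))))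
noncomputable def SI0_4 : Nat := (nat_lit 0x20080200802008020080200802008020080200802008020080200802008020080200802008020080200701c0701c0701c0701c0701c0701c06018060180601806018060180601806018060180601806018060180601806018060180601806018060180601806018060180601806018060180601806018060140501405014050140501405014050140501405014050140501405014050140501404010040100401004010040100401004010040100401004010040100401004010040100400c0300c0300c0300c0300c0300c0300c0300c0300c0300c0300c0300c0300c0300c0300c02008020080200802008020080200802008020080100401004010040100401004010040100401004010040100401004010000000000000000000000000000000000000000)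
noncomputable def SW0_4 : Nat := (nat_lit 0x45822811206d03801b00d606a03781b80d206803381980a005302781380a4051026813009604a01b00d4068026012809001e00e006822010e0650320124090033019008c04400c005820c10408604082000fe07e04282100fa07c03d81e80c006302f81780c406102e81700b605a022011c086042020811808a04001f80f807a03101800bc03c02100e807003602000f806803201800b802801200807583a81d20ca06482f016e0b605f02f41760ba05c82e016a0b405982c807802e016805802a014009801c00c0e707183881d00e607283901c20e006f83781900c705802b41580b105782b81560aa05482a007603a01c80b002400506e03641b00dd06d83681ae0d606a835018c0c505302881420a705282901460a004f827813a07902c81600ae011002034c1a40d1062030c13809b04d01e00ee056008000c004001000034019e0ce0610304130094049826412e09604a824812209004781d80ea074039815407002b06683301960c005f823811a08c03901c40a803701500a4050027)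
noncomputable def RV0_4 : Nat := (nat_lit 0x8808b28a0160880260880dd08808808807938601918203528a01408802308801138600720400b18200e0880e808808718203610001128a01308802208801238600818200f10000308808628a01208802108808928a01508802408808428a01108801f08807008805308806508804908806408804808806308804708806e08805108806108804528a02008809988803688802bb8600ba0400f98201628a00708800f28a0013860002040021820020880a7888033a0401298201a28a00508800c0880043860022040061820060880b188803288802cb8600c98201b28a00408800b08800538600318200710000088803128a00308800a0880bd88803488802db8600d98201c28a00608800d08800638600418200810000188802f28a0020880080880eb28a0280880d00880e70880dc0880d328a0260880cd28a01008801e08801038600620400a18200d28a00838600520400718200a0880e628a00f08801d08801638600918201210000628a00d08801a0880ca28a0240880c208805008803c38601118202508803838600f20401418201f0880c80880c60880c428a0220880c008804420401518202008803738600e20401318201e08803b38601018202408804308804d0880400880c928a0230880c108806d18202d10000b0880553860131820271000080880c70880c50880c328a0210880bf08806008805638601418202808805438601218202610000708806c08805938601518202a08806908805d0880bc28a01f0880980880b00880a608809c28a01808808e28a01e0880970880a50880bb0880033860012040051820050880e928a0270880ce0880e20880d80880d128a0250880cb08808208807738601818203308807138601618202e10000c0880763860171820321000100880d70880e10880810880b628a01c0880930880ac0880a108809a28a01708808c28a01b0880920880a00880ab88802ab8600aa0400e982015)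
noncomputable def CO0_4 : Nat := (nat_lit 0x3aac403a8c503a8c403a74403a6c403a64403a64303a64103a4c503a4c403a44403a44303a44203a4410397840396c40396810396800394c50394c40394840394830394810394800392c40390c50390c4038ac40388c50388c40382c40380c50380c4036ac40369c40366c40365c40356c40355c40352c40351c4034ac40349c40342c40341c4032b05032b040329c40329040329030329020329010328c50328c40328050328030328020328010327440325c40325420325410324c50324c40324440324430324420324410317840315c40315840315830315810314c50314c40314840314830314810314800311c40310c50310c4030b840309c40309840309830309810308c50308c40308840308830308810308800301c40300c50300c402bb8402bb0502bb0402b78402b74402b34402b30502b30402b0c502b0c402b04402b04302b04202b04102b00502b00302b00202b0010297840290c50290c40288840288830288810288800280c50280c4027b84027b05027b040279c40279840279830279810279040279030279020279010277840277440273440273050273040271c40271420271410271040271030271020271010255840255830255810251c40249c40241c4017b84017b05017b04017ac4017a81017a80017a04017a03017a01017a000177840177440173440173050173040172c4017244017243017241017204017203017201017200016ac4016644016643016641014ac40142c4013b84013b05013b04013784013744013344013305013304012b05012b04012744010b8401004401004301004201004100bb8400bb0500bb0400b78400b74400b34400b30500b30400b2c400b24400b24300b24100b20400b20300b20100b20000aa0400aa0300aa0100aa0000a7440097840092c4003b84003b05003b04003784003744003344003305003304002b05002b04002744001784001104001103001102001101)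
noncomputable def Y0_4_1_0 : Nat := (nat_lit 0xfb00000000000190000000000078000000000000000000000000fb000000000001b00000000000fb000000000000800000000000fb000000000000000000000000fb00000000000020000000000078000000000000000000000000fb000000000001b00000000000fb000000000000000000000000fb000000000002000000000000000000000000000000000000007b000000000000200000000000fb000000000002000000000000000000000000000000000000007b000000000000200000000000fb0000000000010000000000ff1b0000000002d0000000000000000000000000000000000000bd1b0000000000002000000000ff1b000000000bd10000000000ff1b0000000000002000000000ffe0000000000bd00000000000ffe00000000000000)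
noncomputable def Y0_4_2_3 : Nat := (nat_lit 0x370000000000037000000000003300000000000000000000000037000000000003700000000000370000000000037000000000003700000000000370000000000037000000000003700000000000330000000000000000000000003700000000000370000016cf72430000000000000000001fdff6c30000000880040000001fdff6c30000000c81240000001fdff6f40000000880040000001fdff6f40000000880040000000000000000000000000000000017df76f400000005016940000017df76f40000000880040)
noncomputable def Y0_4_4_5 : Nat := (nat_lit 0x1ef00000000000000000000000165000000000000000000000001ef000000000000000000000001ef000000000000000000000001ef000000000010400000000000000000000000000000000000016d000000000000400000000001ef000000000010400000000000000000000000000000000000016d0000000000169000000000016d000000000000400000000001ef000000000000000000000001ef000000000000000000000001ef00000000000000000000000165000000000000000000000001ef000000000000000000000001ef0000000000000000000000016d0000000000169000000000016d000000000000000000000001ef000000000010400000000000000000000000000000000000016d0000000000169000000000016d00000000000040000007ff762f0000005284404000000000000000000000000000000005eb662d00000000044040000007ff762f00000012844000000007ff77c000000012844000000007ff77c00000001284400)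
noncomputable def Y0_4_6_6 : Nat := (nat_lit 0x40110040000000000000000000401100400000000000000000000000000000000000000000000000000000000000000000000000000000000000000000000000000000000000000000000000000000000000000000000000000000e0138040000000000000000000e813a04000000a800a0000000040110040000000000000000000000000000000000000000000004011004000000401100400000040110040000000000000000000e8110040000002000000000000000000000000000000000000000000000000000000000000000000000000000000000000000000801380400000000000000000008013a040000008000a00000000a811004000000a80000000000000000000000000000000000000a8110040000002011004000000a81100400000020000001003c00001004100100000100400000000000000000000000000000000000000000000000000000000000000000000000000000000000000000000000000000000380200000380400000000000007b02000003a040b00000000a001002c000010040000800000000000000000000000000000000001002c0000100400000000000001002c00001004100240000100400000000000000000000000000380300000380400000000000007b03c00003a040b00800000a001001004010000000000000000000000000000000000000000000000000000000000000000000000000000000000000000000000000000000000000000000000000380300e01000000000000000007b03c0e8100000b0080a8000001001004010000000000000000000000000000000000000000000100100401000000000000000001001004010000100100401000000000000000000000000000000380300e01000000000000000007b03c0e8100000b0080a800000)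
noncomputable def Y0_4_7_7 : Nat := (nat_lit 0xaa00000000000000000000000000000000000000000000000000aa0000000000000000000000000000000000000000000000000a0a0000000000000000000000000000000000000000000000000a0a0000000000000000000000000000000000000000000000000aa00000000000000000000000000000000000000000000000000aa00000000000000)
noncomputable def Y0_4_8_8 : Nat := (nat_lit 0x476db0000000000200000000000000000000000000000000000000000000000000000000000000476db000000000000000000000400db000000000000000000000416db0000000001249000000000000000000000000000000000041649000000000000000000000000000000000000000000000000000000000000000000000000000000000000000000000000000000000000000000000000000000000000000000000000000000000000000000000000000000e1d8001b000004080000900000e000001b00000000000000000060580009000000000000000000e058001b000006048000900000000000000000000000000000000000000000000000000000000000000000000000000000000000000000000000000000000000000000000000000000000000000000000000000000000000000000e1d8001b0000000100000000000000000000000000000000000000000000000000000000000000e1dc76c00000000100200000000000000000000000000000000000000000000000000000000000e1dc76c000000001002000000000000000000000000000000000000000000000000000000)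
noncomputable def C0_4 : Cd := (Cd.mk (nat_lit 236) (nat_lit 4) (nat_lit 4369) SI0_4 SW0_4 RV0_4 CO0_4 (Sl.cons (Sd.mk (nat_lit 0) (nat_lit 0) (nat_lit 0) (nat_lit 16) (Sb.cons (nat_lit 4) (nat_lit 0) (nat_lit 5) (Sb.cons (nat_lit 8) (nat_lit 5) (nat_lit 3) (Sb.cons (nat_lit 12) (nat_lit 8) (nat_lit 8) Sb.nil))) (Bl.c Y0_4_1_0 (nat_lit 46) (nat_lit 1) Bl.nil)) (Sl.cons (Sd.mk (nat_lit 2) (nat_lit 0) (nat_lit 16) (nat_lit 23) (Sb.cons (nat_lit 4) (nat_lit 0) (nat_lit 2) (Sb.cons (nat_lit 8) (nat_lit 2) (nat_lit 5) (Sb.cons (nat_lit 12) (nat_lit 7) (nat_lit 16) Sb.nil))) (Bl.r Y0_4_1_0 (nat_lit 0) Bl.nil)) (Sl.cons (Sd.mk (nat_lit 4) (nat_lit 4) (nat_lit 39) (nat_lit 16) (Sb.cons (nat_lit 0) (nat_lit 0) (nat_lit 5) (Sb.cons (nat_lit 8) (nat_lit 5) (nat_lit 3) (Sb.cons (nat_lit 12) (nat_lit 8) (nat_lit 8) Sb.nil))) (Bl.r Y0_4_2_3 (nat_lit 3) Bl.nil)) (Sl.cons (Sd.mk (nat_lit 5) (nat_lit 4) (nat_lit 55) (nat_lit 29) (Sb.cons (nat_lit 0) (nat_lit 0) (nat_lit 2) (Sb.cons (nat_lit 8) (nat_lit 2) (nat_lit 4) (Sb.cons (nat_lit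 12) (nat_lit 6) (nat_lit 23) Sb.nil))) (Bl.c Y0_4_2_3 (nat_lit 32) (nat_lit 2) Bl.nil)) (Sl.cons (Sd.mk (nat_lit 9) (nat_lit 8) (nat_lit 84) (nat_lit 29) (Sb.cons (nat_lit 0) (nat_lit 0) (nat_lit 2) (Sb.cons (nat_lit 4) (nat_lit 2) (nat_lit 4) (Sb.cons (nat_lit 12) (nat_lit 6) (nat_lit 23) Sb.nil))) (Bl.r Y0_4_4_5 (nat_lit 5) Bl.nil)) (Sl.cons (Sd.mk (nat_lit 10) (nat_lit 8) (nat_lit 113) (nat_lit 27) (Sb.cons (nat_lit 0) (nat_lit 0) (nat_lit 6) (Sb.cons (nat_lit 4) (nat_lit 6) (nat_lit 3) (Sb.cons (nat_lit 12) (nat_lit 9) (nat_lit 18) Sb.nil))) (Bl.c Y0_4_4_5 (nat_lit 58) (nat_lit 4) Bl.nil)) (Sl.cons (Sd.mk (nat_lit 12) (nat_lit 12) (nat_lit 140) (nat_lit 51) (Sb.cons (nat_lit 0) (nat_lit 0) (nat_lit 14) (Sb.cons (nat_lit 4) (nat_lit 14) (nat_lit 14) (Sb.cons (nat_lit 8) (nat_lit 28) (nat_lit 23) Sb.nil))) (Bl.r Y0_4_6_6 (nat_lit 6) (Bl.c Y0_4_6_6 (nat_lit 102) (nat_lit 6) Bl.nil))) (Sl.cons (Sd.mk (nat_lit 13) (nat_lit 12) (nat_lit 191) (nat_lit 12) (Sb.cons (nat_lit 0) (nat_lit 0) (nat_lit 4) (Sb.cons (nat_lit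 4) (nat_lit 4) (nat_lit 4) (Sb.cons (nat_lit 8) (nat_lit 8) (nat_lit 4) Sb.nil))) (Bl.r Y0_4_7_7 (nat_lit 7) (Bl.c Y0_4_7_7 (nat_lit 24) (nat_lit 7) Bl.nil))) (Sl.cons (Sd.mk (nat_lit 14) (nat_lit 12) (nat_lit 203) (nat_lit 33) (Sb.cons (nat_lit 0) (nat_lit 0) (nat_lit 6) (Sb.cons (nat_lit 4) (nat_lit 6) (nat_lit 13) (Sb.cons (nat_lit 8) (nat_lit 19) (nat_lit 14) Sb.nil))) (Bl.r Y0_4_8_8 (nat_lit 8) (Bl.c Y0_4_8_8 (nat_lit 66) (nat_lit 8) Bl.nil))) Sl.nil))))))))))
noncomputable def SI0_5 : Nat := (nat_lit 0x4010040100300c0300c0200802008020080200802008010040100401004010040100401004010040100000000000000000000)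
noncomputable def SW0_5 : Nat := (nat_lit 0x1600a801c00c0140098014008010009003c01c011006803001600300100a004e024011807c03802000f007403601a00c8028012001013009404402100c005c010000)
noncomputable def RV0_5 : Nat := (nat_lit 0x8808a08802508808508802008806f0880520880620880460880be88803588802e98201d08800e0880071820091000028880300880090880ea0880cf0880e30880d90880d20880cc08808308807818203408807218202f10000d18203910001408807d0880b70880940880ad0880a208809b08808d0880b5982019)
noncomputable def CO0_5 : Nat := (nat_lit 0x38ac40388c40382c40380c4034ac40349c40342c40341c4030b840309c40309840309810308c40308840308810308800301c40300c400bb8400bb0400b78400b74400b34400b30400b2c400b24400b24100b20400b20100b200008a81008a800082c4003b84003b04003784003744003344003304000b84000141)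
noncomputable def Y0_5_1_0 : Nat := (nat_lit 0x2000000000000000000000000020000000000000000000000000200000000000000000000000002000000000000000000000000020000000000000000000000000200000000000000000000000002000000000000000000000000020000000000000000000000000000000000000000000000000002000000000000000000000000000000000000000000000000000200000000000000000000000000000000000000000000000000fe000000000000000000000000fe0000000000000)
noncomputable def Y0_5_2_2 : Nat := (nat_lit 0x1020000000000000000000000000000000000000000000000000000000000000000000000000000000000000000000000000000038200000000000000000000000102000000000000000000000000000000000000000000000000010200000000000000000000000000000000000000000000000003820000000000000)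
noncomputable def Y0_5_3_3 : Nat := (nat_lit 0xa000000000000000000000000000000000000000000000000000a0000000000000)
noncomputable def Y0_5_4_4 : Nat := (nat_lit 0x50000000000000000000000000000000000000000000000000005000000000000000000000000000000000000000)
noncomputable def C0_5 : Cd := (Cd.mk (nat_lit 41) (nat_lit 8) (nat_lit 4103) SI0_5 SW0_5 RV0_5 CO0_5 (Sl.cons (Sd.mk (nat_lit 0) (nat_lit 0) (nat_lit 0) (nat_lit 8) (Sb.cons (nat_lit 0) (nat_lit 0) (nat_lit 2) (Sb.cons (nat_lit 12) (nat_lit 2) (nat_lit 6) Sb.nil)) (Bl.c Y0_5_1_0 (nat_lit 30) (nat_lit 1) Bl.nil)) (Sl.cons (Sd.mk (nat_lit 2) (nat_lit 0) (nat_lit 8) (nat_lit 15) (Sb.cons (nat_lit 0) (nat_lit 0) (nat_lit 3) (Sb.cons (nat_lit 12) (nat_lit 3) (nat_lit 12) Sb.nil)) (Bl.r Y0_5_1_0 (nat_lit 0) Bl.nil)) (Sl.cons (Sd.mk (nat_lit 12) (nat_lit 12) (nat_lit 23) (nat_lit 10) (Sb.cons (nat_lit 0) (nat_lit 0) (nat_lit 10) Sb.nil) (Bl.r Y0_5_2_2 (nat_lit 2) (Bl.c Y0_5_2_2 (nat_lit 20) (nat_lit 2) Bl.nil))) (Sl.cons (Sd.mk (nat_lit 13) (nat_lit 12) (nat_lit 33) (nat_lit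 4) (Sb.cons (nat_lit 0) (nat_lit 0) (nat_lit 4) Sb.nil) (Bl.r Y0_5_3_3 (nat_lit 3) (Bl.c Y0_5_3_3 (nat_lit 8) (nat_lit 3) Bl.nil))) (Sl.cons (Sd.mk (nat_lit 14) (nat_lit 12) (nat_lit 37) (nat_lit 4) (Sb.cons (nat_lit 0) (nat_lit 0) (nat_lit 4) Sb.nil) (Bl.r Y0_5_4_4 (nat_lit 4) (Bl.c Y0_5_4_4 (nat_lit 8) (nat_lit 4) Bl.nil))) Sl.nil))))))
noncomputable def CL0 : Cl := (Cl.cons C0_0 (Cl.cons C0_1 (Cl.cons C0_2 (Cl.cons C0_3 (Cl.cons C0_4 (Cl.cons C0_5 Cl.nil))))))
noncomputable def ZL0_0 : Zl := (Zl.cons (nat_lit 0) (nat_lit 0) (nat_lit 0) (Zl.cons (nat_lit 19) (nat_lit 0) (nat_lit 11) (Zl.cons (nat_lit 12) (nat_lit 11) (nat_lit 7) (Zl.cons (nat_lit 10) (nat_lit 18) (nat_lit 4) (Zl.cons (nat_lit 39) (nat_lit 22) (nat_lit 16) (Zl.cons (nat_lit 0) (nat_lit 0) (nat_lit 0) Zl.nil))))))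
noncomputable def ZZ0 : ZZ := (ZZ.cons ZL0_0 ZZ.nil)
noncomputable def SI1_0 : Nat := (nat_lit 0xc0300c0300c0200802008010040100000)
noncomputable def SW1_0 : Nat := (nat_lit 0x1a008002000c00200c003800800000b0050018012005)
noncomputable def RV1_0 : Nat := (nat_lit 0x18200508805f08800b18200708800e08802918201108802708802308803718201608805d08804408804b)
noncomputable def CO1_0 : Nat := (nat_lit 0x2a80102a7440288840288810280c40269c40265410249c40241c400aa0400aa0100a744002b04002744)
noncomputable def Y1_0_1_0 : Nat := (nat_lit 0x40000100000c0000300000c00003)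
noncomputable def Y1_0_2_3 : Nat := (nat_lit 0x7c0001f00007c0001f0000600001800006000018)
noncomputable def C1_0 : Cd := (Cd.mk (nat_lit 14) (nat_lit 5) (nat_lit 1025) SI1_0 SW1_0 RV1_0 CO1_0 (Sl.cons (Sd.mk (nat_lit 0) (nat_lit 0) (nat_lit 0) (nat_lit 2) (Sb.cons (nat_lit 8) (nat_lit 0) (nat_lit 2) Sb.nil) (Bl.c Y1_0_1_0 (nat_lit 6) (nat_lit 1) Bl.nil)) (Sl.cons (Sd.mk (nat_lit 2) (nat_lit 0) (nat_lit 2) (nat_lit 3) (Sb.cons (nat_lit 8) (nat_lit 0) (nat_lit 3) Sb.nil) (Bl.r Y1_0_1_0 (nat_lit 0) Bl.nil)) (Sl.cons (Sd.mk (nat_lit 9) (nat_lit 8) (nat_lit 5) (nat_lit 4) (Sb.cons (nat_lit 0) (nat_lit 0) (nat_lit 2) (Sb.cons (nat_lit 8) (nat_lit 2) (nat_lit 2) Sb.nil)) (Bl.r Y1_0_2_3 (nat_lit 3) Bl.nil)) (Sl.cons (Sd.mk (nat_lit 10) (nat_lit 8) (nat_lit 9) (nat_lit 5) (Sb.cons (nat_lit 0) (nat_lit 0) (nat_lit 3) (Sb.cons (nat_lit 8) (nat_lit 3) (nat_lit 2) Sb.nil)) (Bl.c Y1_0_2_3 (nat_lit 8) (nat_lit 2) Bl.nil)) Sl.nil)))))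
noncomputable def SI1_1 : Nat := (nat_lit 0x140501405010040100300c0300c0200802008020080100401004000000000000)
noncomputable def SW1_1 : Nat := (nat_lit 0x3200e004001c02a0120068050022006002006002600c001800800201700b004000a00f0058028012000)
noncomputable def RV1_1 : Nat := (nat_lit 0x20400608800f08800c10000320401108802008802508802d10000708803308802f08804608804d20400008800020400218200108803810000a08806010000d08804f888015a04009982009a0400c)
noncomputable def CO1_1 : Nat := (nat_lit 0x2a8020290c40288840288800265420255840251c4016644015680014ac40142c4012b0401274401100201004401004201004100aa0400aa00009784008a80001784001104001102001101000142)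
noncomputable def Y1_1_1_0 : Nat := (nat_lit 0x1400000000048000000000200000000004800000)
noncomputable def Y1_1_2_3 : Nat := (nat_lit 0x10000000000100000000002000000000010000000000200000000001000000)
noncomputable def Y1_1_4_5 : Nat := (nat_lit 0x18000000000240000000002000000)
noncomputable def C1_1 : Cd := (Cd.mk (nat_lit 26) (nat_lit 6) (nat_lit 546) SI1_1 SW1_1 RV1_1 CO1_1 (Sl.cons (Sd.mk (nat_lit 0) (nat_lit 0) (nat_lit 0) (nat_lit 5) (Sb.cons (nat_lit 0) (nat_lit 0) (nat_lit 1) (Sb.cons (nat_lit 4) (nat_lit 1) (nat_lit 4) Sb.nil)) (Bl.c Y1_1_1_0 (nat_lit 8) (nat_lit 1) Bl.nil)) (Sl.cons (Sd.mk (nat_lit 2) (nat_lit 0) (nat_lit 5) (nat_lit 4) (Sb.cons (nat_lit 0) (nat_lit 0) (nat_lit 1) (Sb.cons (nat_lit 4) (nat_lit 1) (nat_lit 1) (Sb.cons (nat_lit 8) (nat_lit 2) (nat_lit 2) Sb.nil))) (Bl.r Y1_1_1_0 (nat_lit 0) Bl.nil)) (Sl.cons (Sd.mk (nat_lit 4) (nat_lit 4) (nat_lit 9) (nat_lit 6) (Sb.cons (nat_lit 0) (nat_lit 0) (nat_lit 3) (Sb.cons (nat_lit 4) (nat_lit 3) (nat_lit 1) (Sb.cons (nat_lit 8) (nat_lit 4) (nat_lit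 2) Sb.nil))) (Bl.r Y1_1_2_3 (nat_lit 3) Bl.nil)) (Sl.cons (Sd.mk (nat_lit 5) (nat_lit 4) (nat_lit 15) (nat_lit 4) (Sb.cons (nat_lit 0) (nat_lit 0) (nat_lit 2) (Sb.cons (nat_lit 4) (nat_lit 2) (nat_lit 1) (Sb.cons (nat_lit 8) (nat_lit 3) (nat_lit 1) Sb.nil))) (Bl.c Y1_1_2_3 (nat_lit 12) (nat_lit 2) Bl.nil)) (Sl.cons (Sd.mk (nat_lit 9) (nat_lit 8) (nat_lit 19) (nat_lit 3) (Sb.cons (nat_lit 4) (nat_lit 0) (nat_lit 2) (Sb.cons (nat_lit 8) (nat_lit 2) (nat_lit 1) Sb.nil)) (Bl.r Y1_1_4_5 (nat_lit 5) Bl.nil)) (Sl.cons (Sd.mk (nat_lit 10) (nat_lit 8) (nat_lit 22) (nat_lit 4) (Sb.cons (nat_lit 0) (nat_lit 0) (nat_lit 2) (Sb.cons (nat_lit 4) (nat_lit 2) (nat_lit 1) (Sb.cons (nat_lit 8) (nat_lit 3) (nat_lit 1) Sb.nil))) (Bl.c Y1_1_4_5 (nat_lit 6) (nat_lit 4) Bl.nil)) Sl.nil)))))))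
noncomputable def SI1_2 : Nat := (nat_lit 0xc0300c0300802008020080100401004000000000000)
noncomputable def SW1_2 : Nat := (nat_lit 0x2200d004001002000c003800c00400f005801800200e005002400a000)
noncomputable def RV1_2 : Nat := (nat_lit 0x18201508803208803408803008805218200008805508800118200208806108803d18201908803c08805088801698200a08805398200c)
noncomputable def CO1_2 : Nat := (nat_lit 0x156810152c4014ac40142c4011784011001010b840100440100410097840092c4008a810082c4001784001104001101000b84000141)
noncomputable def Y1_2_1_0 : Nat := (nat_lit 0x200000800005c000160000200000800005c00012)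
noncomputable def Y1_2_2_3 : Nat := (nat_lit 0x1c0000700001c0000000001c0000700003c0000f00001c00002)
noncomputable def C1_2 : Cd := (Cd.mk (nat_lit 18) (nat_lit 7) (nat_lit 67) SI1_2 SW1_2 RV1_2 CO1_2 (Sl.cons (Sd.mk (nat_lit 0) (nat_lit 0) (nat_lit 0) (nat_lit 5) (Sb.cons (nat_lit 0) (nat_lit 0) (nat_lit 2) (Sb.cons (nat_lit 4) (nat_lit 2) (nat_lit 3) Sb.nil)) (Bl.c Y1_2_1_0 (nat_lit 8) (nat_lit 1) Bl.nil)) (Sl.cons (Sd.mk (nat_lit 2) (nat_lit 0) (nat_lit 5) (nat_lit 4) (Sb.cons (nat_lit 0) (nat_lit 0) (nat_lit 2) (Sb.cons (nat_lit 4) (nat_lit 2) (nat_lit 2) Sb.nil)) (Bl.r Y1_2_1_0 (nat_lit 0) Bl.nil)) (Sl.cons (Sd.mk (nat_lit 4) (nat_lit 4) (nat_lit 9) (nat_lit 5) (Sb.cons (nat_lit 0) (nat_lit 0) (nat_lit 3) (Sb.cons (nat_lit 4) (nat_lit 3) (nat_lit 2) Sb.nil)) (Bl.r Y1_2_2_3 (nat_lit 3) Bl.nil)) (Sl.cons (Sd.mk (nat_lit 5) (nat_lit 4) (nat_lit 14) (nat_lit 4) (Sb.cons (nat_lit 0) (nat_lit 0) (nat_lit 2) (Sb.cons (nat_lit 4) (nat_lit 2) (nat_lit 2) Sb.nil)) (Bl.c Y1_2_2_3 (nat_lit 10) (nat_lit 2) Bl.nil)) Sl.nil)))))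
noncomputable def C1_3 : Cd := (Cd.mk (nat_lit 0) (nat_lit 10) (nat_lit 280) (nat_lit 0) (nat_lit 0) (nat_lit 0) (nat_lit 0) Sl.nil)
noncomputable def SI1_4 : Nat := (nat_lit 0x1c0701c0701c0701c0701c0701c0701c0701c060180601806018060180601806018060180601806018060180601405014050140501405014050140401004010040100401004010040100400c0300c0300c0300c0300c0300c03008020080200802008020080100401004010040100401004010040000000000000000000000)
noncomputable def SW1_4 : Nat := (nat_lit 0x8204001b00d406803301480a004e01d00e005002600800380fc07a03e01e00c8062030017809804a024011806c034012008003c02200e00300140ca06402b01500aa053011006401a00c005818c0c406103001480a2050027808404001800500100be05e02e813809a04c02580ec05c02d004800c0b805b025012407402c001000400005a02c812008a047023011007203801b80ac03e05802b810c08402a00f005c02c015)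
noncomputable def RV1_4 : Nat := (nat_lit 0x8804108801408803b08800920400818200610000c08800a10000208803f08801208804008801308803e08801188801da0400b088008204001a0400d08800320400418200488801898200d08800410000088801b08800688801c88801998200e08800710000188801a08800508806508805a08805c08805820400720400508806308801008800d18200810000408802208801f20400f18201020401008801e20400e18200f08802118201208802608802808802410000808802b10000608802c18201308802a10000508803608802e18201408803508803108805608804808804a08804308804708804e08800220400318200308806408805908805b08805708803a18201810000908803918201710000b08805e08806208805408804508804908804208804c088051888017a0400a98200b)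
noncomputable def CO1_4 : Nat := (nat_lit 0x3aac403a8c403a64403a44403a44203a4410396800394840394800392c40390c4038ac40388c40382c40380c40329c40329020328c40328020325420324440324420324410315840315810314840314800311c40310c40309c40309840309810308c40308800301c40300c402bb8402bb0402b34402b30402b04202b0020297840290c40288840288810288800279840279040279020279010271420271040271020271010255840255810251c40249c40241c4017a80017a04017a00017244017241017204017200016ac4016644016641014ac40142c4013b84013b04013344013304012b0401274401004401004201004100bb8400bb0400b34400b30400b24400b24100b20000aa0400aa0100aa0000a744009784003b84003b04003344003304002744001784001104001102001101)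
noncomputable def Y1_4_1_0 : Nat := (nat_lit 0x340000000003c000000000080000200003c0000200004000000000008000020000200000000038000000000008000020007a0000080000080000200078000000)
noncomputable def Y1_4_2_3 : Nat := (nat_lit 0x7c0000000007c0000100007c0000000007c0000000288000000003d800000000288000000001730001cc00288000000)
noncomputable def Y1_4_4_5 : Nat := (nat_lit 0x440000100004400000000078000000000040000000007800002000044000000000780000200000400000001f84000e000018400060000f8000000000f8000080000f8000000)
noncomputable def Y1_4_6_6 : Nat := (nat_lit 0x60c001810000508000400000000000000600000000004508010000040000000000000000000000000000000400001000040010800000000000000002400c00000000000000000000000000000000000000024600080000400400000000000000000024600000000)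
noncomputable def Y1_4_7_7 : Nat := (nat_lit 0x10000000000000000000003540001000000000000000000000000000000000000a814000000000000000000000000000001000000000000000000000110000000000000000000011000000000000000000)
noncomputable def C1_4 : Cd := (Cd.mk (nat_lit 102) (nat_lit 4) (nat_lit 4369) SI1_4 SW1_4 RV1_4 CO1_4 (Sl.cons (Sd.mk (nat_lit 0) (nat_lit 0) (nat_lit 0) (nat_lit 9) (Sb.cons (nat_lit 4) (nat_lit 0) (nat_lit 4) (Sb.cons (nat_lit 8) (nat_lit 4) (nat_lit 1) (Sb.cons (nat_lit 12) (nat_lit 5) (nat_lit 4) Sb.nil))) (Bl.c Y1_4_1_0 (nat_lit 24) (nat_lit 1) Bl.nil)) (Sl.cons (Sd.mk (nat_lit 2) (nat_lit 0) (nat_lit 9) (nat_lit 12) (Sb.cons (nat_lit 4) (nat_lit 0) (nat_lit 1) (Sb.cons (nat_lit 8) (nat_lit 1) (nat_lit 4) (Sb.cons (nat_lit 12) (nat_lit 5) (nat_lit 7) Sb.nil))) (Bl.r Y1_4_1_0 (nat_lit 0) Bl.nil)) (Sl.cons (Sd.mk (nat_lit 4) (nat_lit 4) (nat_lit 21) (nat_lit 9) (Sb.cons (nat_lit 0) (nat_lit 0) (nat_lit 3) (Sb.cons (nat_lit 8) (nat_lit 3) (nat_lit 2) (Sb.cons (nat_lit 12) (nat_lit 5) (nat_lit 4) Sb.nil)))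 (Bl.r Y1_4_2_3 (nat_lit 3) Bl.nil)) (Sl.cons (Sd.mk (nat_lit 5) (nat_lit 4) (nat_lit 30) (nat_lit 12) (Sb.cons (nat_lit 0) (nat_lit 0) (nat_lit 2) (Sb.cons (nat_lit 8) (nat_lit 2) (nat_lit 3) (Sb.cons (nat_lit 12) (nat_lit 5) (nat_lit 7) Sb.nil))) (Bl.c Y1_4_2_3 (nat_lit 18) (nat_lit 2) Bl.nil)) (Sl.cons (Sd.mk (nat_lit 9) (nat_lit 8) (nat_lit 42) (nat_lit 13) (Sb.cons (nat_lit 0) (nat_lit 0) (nat_lit 2) (Sb.cons (nat_lit 4) (nat_lit 2) (nat_lit 3) (Sb.cons (nat_lit 12) (nat_lit 5) (nat_lit 8) Sb.nil))) (Bl.r Y1_4_4_5 (nat_lit 5) Bl.nil)) (Sl.cons (Sd.mk (nat_lit 10) (nat_lit 8) (nat_lit 55) (nat_lit 11) (Sb.cons (nat_lit 0) (nat_lit 0) (nat_lit 3) (Sb.cons (nat_lit 4) (nat_lit 3) (nat_lit 2) (Sb.cons (nat_lit 12) (nat_lit 5) (nat_lit 6) Sb.nil))) (Bl.c Y1_4_4_5 (nat_lit 26) (nat_lit 4) Bl.nil)) (Sl.cons (Sd.mk (nat_lit 12) (nat_lit 12) (nat_lit 66) (nat_lit 21) (Sb.cons (nat_lit 0) (nat_lit 0) (nat_lit 7) (Sb.cons (nat_lit 4) (nat_lit 7) (nat_lit 6) (Sb.cons (nat_lit 8) (nat_lit 13) (nat_lit 8) Sb.nil))) (Bl.r Y1_4_6_6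 (nat_lit 6) (Bl.c Y1_4_6_6 (nat_lit 42) (nat_lit 6) Bl.nil))) (Sl.cons (Sd.mk (nat_lit 14) (nat_lit 12) (nat_lit 87) (nat_lit 15) (Sb.cons (nat_lit 0) (nat_lit 0) (nat_lit 4) (Sb.cons (nat_lit 4) (nat_lit 4) (nat_lit 5) (Sb.cons (nat_lit 8) (nat_lit 9) (nat_lit 6) Sb.nil))) (Bl.r Y1_4_7_7 (nat_lit 7) (Bl.c Y1_4_7_7 (nat_lit 30) (nat_lit 7) Bl.nil))) Sl.nil)))))))))
noncomputable def C1_5 : Cd := (Cd.mk (nat_lit 0) (nat_lit 8) (nat_lit 4103) (nat_lit 0) (nat_lit 0) (nat_lit 0) (nat_lit 0) Sl.nil)
noncomputable def CL1 : Cl := (Cl.cons C1_0 (Cl.cons C1_1 (Cl.cons C1_2 (Cl.cons C1_3 (Cl.cons C1_4 (Cl.cons C1_5 Cl.nil))))))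
noncomputable def AL1_0 : Nat := (nat_lit 0x79beb)
noncomputable def A41_0 : Nat := (nat_lit 0x79beb)
noncomputable def IX1_0 : Nat := (nat_lit 0xd000000000000c000000000000b000000000000a000000000000000000000000000000000000009000000000000800000000000000000000000007000000000000600000000000050000000000004000000000000300000000000000000000000002000000000000000000000000010000000000000)
noncomputable def OL1_0 : Nat := (nat_lit 0x240044008000f0018002c0048008000e0018002800300020000)
noncomputable def AL1_1 : Nat := (nat_lit 0x10d55f2dd7d487a)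
noncomputable def A41_1 : Nat := (nat_lit 0x10d1512d93d487a)
noncomputable def IX1_1 : Nat := (nat_lit 0x190000000000000000000000000000000000000000000000000000000000000001800000000000170000000000000000000000001600000000000000000000000000000000000000000000000000150000000000000000000000001400000000000000000000000013000000000000000000000000000000000000000000000000001200000000000000000000000000000000000001100000000000000000000000010000000000000f0000000000000000000000000e000000000000d00000000000000000000000000000000000000c00000000000000000000000000000000000000b000000000000a00000000000090000000000008000000000000000000000000070000000000000000000000000600000000000000000000000000000000000000500000000000000000000000000000000000000000000000000000000000000004000000000000300000000000020000000000001000000000000000000000000000000000000000)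
noncomputable def OL1_1 : Nat := (nat_lit 0x7000cc0190030005800a801400240042007c00f001c0036006000a801400260048008000e00160018002800400060004)
noncomputable def AL1_2 : Nat := (nat_lit 0xbddeed)
noncomputable def A41_2 : Nat := (nat_lit 0xbddeed)
noncomputable def IX1_2 : Nat := (nat_lit 0x1100000000000000000000000010000000000000f000000000000e000000000000d0000000000000000000000000c000000000000b000000000000a00000000000000000000000009000000000000800000000000070000000000006000000000000000000000000050000000000004000000000000300000000000000000000000002000000000000100000000000000000000000000)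
noncomputable def OL1_2 : Nat := (nat_lit 0x2e005400a001300240040007800e0018002c0050009000e0018002800300040000)
noncomputable def AL1_3 : Nat := (nat_lit 0)
noncomputable def A41_3 : Nat := (nat_lit 0)
noncomputable def IX1_3 : Nat := (nat_lit 0)
noncomputable def OL1_3 : Nat := (nat_lit 0)
noncomputable def AL1_4 : Nat := (nat_lit 0xb46e49b68001b4bdbeb35a8da508ada16c0aef06c0b7bdebddaaddebd3b)
noncomputable def A41_4 : Nat := (nat_lit 0xa42c49b680012488b2935a8da508ad812c0aef0640b3bd2b5d2a8dea53b)
noncomputable def IX1_4 : Nat := (nat_lit 0x650000000000000000000000006400000000000000000000000000000000000006300000000000000000000000000000000000000000000000000000000000000062000000000000000000000000610000000000060000000000000000000000000000000000000000000000000005f00000000000000000000000000000000000005e00000000000000000000000000000000000005d000000000005c0000000000000000000000005b000000000005a000000000000000000000000590000000000058000000000000000000000000570000000000000000000000000000000000000000000000000000000000000000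000000000000000000000000000000000000000000000000000000000000000000000000000000000000000000000000000000000000000000000000000000000560000000000000000000000000000000000000550000000000000000000000000000000000000540000000000000000000000000000000000000530000000000000000000000000000000000000000000000000052000000000000000000000000000000000000000000000000005100000000000000000000000050000000000004f00000000000000000000000000000000000004e0000000000000000000000004d00000000000000000000000000000000000004c00000000000000000000000000000000000004b000000000004a000000000000000000000000490000000000000000000000004800000000000470000000000000000000000004600000000000000000000000045000000000000000000000000000000000000000000000000004400000000000430000000000000000000000004200000000000410000000000000000000000004000000000000000000000000000000000000003f0000000000000000000000003e0000000000000000000000000000000000000000000000000000000000000003d000000000000000000000000000000000000000000000000003c0000000000000000000000003b0000000000000000000000003a0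000000000039000000000000000000000000380000000000037000000000000000000000000000000000000000000000000000000000000000000000000000000000000000003600000000000000000000000000000000000003500000000000000000000000034000000000003300000000000000000000000000000000000000000000000000000000000000000000000000000000000000000320000000000000000000000003100000000000000000000000030000000000002f000000000002e0000000000000000000000002d000000000002c000000000002b000000000002a000000000000000000000000000000000000000000000000000000000000000000000000000029000000000002800000000000000000000000000000000000002700000000000000000000000000000000000000000000000000000000000000000000000000000000000000000260000000000000000000000002500000000000240000000000000000000000000000000000000230000000000022000000000002100000000000000000000000020000000000001f000000000001e000000000001d0000000000000000000000001c00000000000000000000000000000000000001b0000000000000000000000001a0000000000000000000000001900000000000180000000000000000000000001700000000000000000000000016000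000000001500000000000140000000000000000000000001300000000000000000000000000000000000001200000000000000000000000011000000000000000000000000100000000000000000000000000f000000000000000000000000000000000000000000000000000e000000000000d0000000000000000000000000c000000000000b000000000000a000000000000900000000000000000000000008000000000000000000000000070000000000000000000000000000000000000060000000000000000000000000500000000000000000000000000000000000000400000000000030000000000002000000000000000000000000010000000000000)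
noncomputable def OL1_4 : Nat := (nat_lit 0x1d603a407300e101be037806d00d701a8034c06880d0019c033406580bc017202d805980af015602a405400a50146028004e809c0134026004b80950126023c047008c01160224043008400fe01ec03c807700ec01d0039806c00d2019c033005f00ba016c02d005900ae015802a8054009c013402500430082010001e803c007600e401c0037006c00d0018802f005a00b00150028004e00980120021003e007400d8017002c005000980120022003c006800a00100014002000300020000)
noncomputable def AL1_5 : Nat := (nat_lit 0)
noncomputable def A41_5 : Nat := (nat_lit 0)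
noncomputable def IX1_5 : Nat := (nat_lit 0)
noncomputable def OL1_5 : Nat := (nat_lit 0)
noncomputable def TL1 : Tl := (Tl.cons (Tr.mk AL1_0 A41_0 IX1_0 OL1_0) (Tl.cons (Tr.mk AL1_1 A41_1 IX1_1 OL1_1) (Tl.cons (Tr.mk AL1_2 A41_2 IX1_2 OL1_2) (Tl.cons (Tr.mk AL1_3 A41_3 IX1_3 OL1_3) (Tl.cons (Tr.mk AL1_4 A41_4 IX1_4 OL1_4) (Tl.cons (Tr.mk AL1_5 A41_5 IX1_5 OL1_5) Tl.nil))))))
noncomputable def ZL1_0 : Zl := (Zl.cons (nat_lit 0) (nat_lit 0) (nat_lit 14) (Zl.cons (nat_lit 0) (nat_lit 0) (nat_lit 26) (Zl.cons (nat_lit 0) (nat_lit 0) (nat_lit 18) (Zl.cons (nat_lit 0) (nat_lit 0) (nat_lit 0) (Zl.cons (nat_lit 0) (nat_lit 0) (nat_lit 102) (Zl.cons (nat_lit 0) (nat_lit 0) (nat_lit 0) Zl.nil))))))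
noncomputable def ZZ1 : ZZ := (ZZ.cons ZL1_0 ZZ.nil)
noncomputable def SI2_0 : Nat := (nat_lit 0x400)
noncomputable def SW2_0 : Nat := (nat_lit 0x1)
noncomputable def RV2_0 : Nat := (nat_lit 0x88001088009)
noncomputable def CO2_0 : Nat := (nat_lit 0x2888400aa04)
noncomputable def C2_0 : Cd := (Cd.mk (nat_lit 2) (nat_lit 5) (nat_lit 1025) SI2_0 SW2_0 RV2_0 CO2_0 (Sl.cons (Sd.mk (nat_lit 2) (nat_lit 0) (nat_lit 0) (nat_lit 1) (Sb.cons (nat_lit 8) (nat_lit 0) (nat_lit 1) Sb.nil) Bl.nil) (Sl.cons (Sd.mk (nat_lit 10) (nat_lit 8) (nat_lit 1) (nat_lit 1) (Sb.cons (nat_lit 0) (nat_lit 0) (nat_lit 1) Sb.nil) Bl.nil) Sl.nil)))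
noncomputable def C2_1 : Cd := (Cd.mk (nat_lit 0) (nat_lit 6) (nat_lit 546) (nat_lit 0) (nat_lit 0) (nat_lit 0) (nat_lit 0) Sl.nil)
noncomputable def SI2_2 : Nat := (nat_lit 0xc0300802008010040000000)
noncomputable def SW2_2 : Nat := (nat_lit 0xe0020048010002006000002000a003)
noncomputable def RV2_2 : Nat := (nat_lit 0x8800808800708800e08801008800008800b08800a08800d88800308800f)
noncomputable def CO2_2 : Nat := (nat_lit 0x152c40142c4011784010b840100440092c40082c4001784001104000b84)
noncomputable def Y2_2_1_0 : Nat := (nat_lit 0x140140)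
noncomputable def Y2_2_2_3 : Nat := (nat_lit 0xc00c00c0)
noncomputable def C2_2 : Cd := (Cd.mk (nat_lit 10) (nat_lit 7) (nat_lit 67) SI2_2 SW2_2 RV2_2 CO2_2 (Sl.cons (Sd.mk (nat_lit 0) (nat_lit 0) (nat_lit 0) (nat_lit 3) (Sb.cons (nat_lit 0) (nat_lit 0) (nat_lit 1) (Sb.cons (nat_lit 4) (nat_lit 1) (nat_lit 2) Sb.nil)) (Bl.c Y2_2_1_0 (nat_lit 4) (nat_lit 1) Bl.nil)) (Sl.cons (Sd.mk (nat_lit 2) (nat_lit 0) (nat_lit 3) (nat_lit 2) (Sb.cons (nat_lit 0) (nat_lit 0) (nat_lit 1) (Sb.cons (nat_lit 4) (nat_lit 1) (nat_lit 1) Sb.nil)) (Bl.r Y2_2_1_0 (nat_lit 0) Bl.nil)) (Sl.cons (Sd.mk (nat_lit 4) (nat_lit 4) (nat_lit 5) (nat_lit 3) (Sb.cons (nat_lit 0) (nat_lit 0) (nat_lit 2) (Sb.cons (nat_lit 4) (nat_lit 2) (nat_lit 1) Sb.nil)) (Bl.r Y2_2_2_3 (nat_lit 3) Bl.nil)) (Sl.cons (Sd.mk (nat_lit 5) (nat_lit 4) (nat_lit 8) (nat_lit 2) (Sb.cons (nat_lit 0) (nat_lit 0) (nat_lit 1) (Sb.cons (nat_lit 4) (nat_lit 1) (nat_lit 1) Sb.nil)) (Bl.c Y2_2_2_3 (nat_lit 6) (nat_lit 2) Bl.nil)) Sl.nil)))))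
noncomputable def C2_3 : Cd := (Cd.mk (nat_lit 0) (nat_lit 10) (nat_lit 280) (nat_lit 0) (nat_lit 0) (nat_lit 0) (nat_lit 0) Sl.nil)
noncomputable def SI2_4 : Nat := (nat_lit 0x1c06018060180601405014040100400c020080100400)
noncomputable def SW2_4 : Nat := (nat_lit 0x800b005002000e002008003c00200e006801400c0110000030012003)
noncomputable def RV2_4 : Nat := (nat_lit 0x88002a04006204000a0400720400288800420400420400310000020400920400808800508800608800c204001088011100001a04005)
noncomputable def CO2_4 : Nat := (nat_lit 0x390c40329020328020325420324420309c402b04202b002028880027142027102025584016644013b0401004200b34400aa00001102)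
noncomputable def Y2_4_1_0 : Nat := (nat_lit 0x40000)
noncomputable def Y2_4_2_3 : Nat := (nat_lit 0x40)
noncomputable def Y2_4_4_5 : Nat := (nat_lit 0x180)
noncomputable def Y2_4_6_6 : Nat := (nat_lit 0x40000000000)
noncomputable def C2_4 : Cd := (Cd.mk (nat_lit 18) (nat_lit 4) (nat_lit 4369) SI2_4 SW2_4 RV2_4 CO2_4 (Sl.cons (Sd.mk (nat_lit 0) (nat_lit 0) (nat_lit 0) (nat_lit 1) (Sb.cons (nat_lit 4) (nat_lit 0) (nat_lit 1) Sb.nil) (Bl.c Y2_4_1_0 (nat_lit 4) (nat_lit 1) Bl.nil)) (Sl.cons (Sd.mk (nat_lit 2) (nat_lit 0) (nat_lit 1) (nat_lit 2) (Sb.cons (nat_lit 8) (nat_lit 0) (nat_lit 1) (Sb.cons (nat_lit 12) (nat_lit 1) (nat_lit 1) Sb.nil)) (Bl.r Y2_4_1_0 (nat_lit 0) Bl.nil)) (Sl.cons (Sd.mk (nat_lit 4) (nat_lit 4) (nat_lit 3) (nat_lit 2) (Sb.cons (nat_lit 0) (nat_lit 0) (nat_lit 1) (Sb.cons (nat_lit 12) (nat_lit 1) (nat_lit 1) Sb.nil)) (Bl.r Y2_4_2_3 (nat_lit 3) Bl.nil)) (Sl.cons (Sd.mk (nat_lit 5) (nat_lit 4) (nat_lit 5) (nat_lit 1) (Sb.cons (nat_lit 8) (nat_lit 0) (nat_lit 1) Sb.nil) (Bl.c Y2_4_2_3 (nat_lit 4) (nat_lit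 2) Bl.nil)) (Sl.cons (Sd.mk (nat_lit 9) (nat_lit 8) (nat_lit 6) (nat_lit 3) (Sb.cons (nat_lit 4) (nat_lit 0) (nat_lit 1) (Sb.cons (nat_lit 12) (nat_lit 1) (nat_lit 2) Sb.nil)) (Bl.r Y2_4_4_5 (nat_lit 5) Bl.nil)) (Sl.cons (Sd.mk (nat_lit 10) (nat_lit 8) (nat_lit 9) (nat_lit 3) (Sb.cons (nat_lit 0) (nat_lit 0) (nat_lit 1) (Sb.cons (nat_lit 12) (nat_lit 1) (nat_lit 2) Sb.nil)) (Bl.c Y2_4_4_5 (nat_lit 6) (nat_lit 4) Bl.nil)) (Sl.cons (Sd.mk (nat_lit 12) (nat_lit 12) (nat_lit 12) (nat_lit 5) (Sb.cons (nat_lit 0) (nat_lit 0) (nat_lit 1) (Sb.cons (nat_lit 8) (nat_lit 1) (nat_lit 4) Sb.nil)) (Bl.r Y2_4_6_6 (nat_lit 6) (Bl.c Y2_4_6_6 (nat_lit 10) (nat_lit 6) Bl.nil))) (Sl.cons (Sd.mk (nat_lit 14) (nat_lit 12) (nat_lit 17) (nat_lit 1) (Sb.cons (nat_lit 4) (nat_lit 0) (nat_lit 1) Sb.nil) Bl.nil) Sl.nil)))))))))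
noncomputable def C2_5 : Cd := (Cd.mk (nat_lit 0) (nat_lit 8) (nat_lit 4103) (nat_lit 0) (nat_lit 0) (nat_lit 0) (nat_lit 0) Sl.nil)
noncomputable def CL2 : Cl := (Cl.cons C2_0 (Cl.cons C2_1 (Cl.cons C2_2 (Cl.cons C2_3 (Cl.cons C2_4 (Cl.cons C2_5 Cl.nil))))))
noncomputable def AL2_0 : Nat := (nat_lit 0x3fff)
noncomputable def A42_0 : Nat := (nat_lit 0x810)
noncomputable def IX2_0 : Nat := (nat_lit 0x100000000000000000000000000000000000000000000000000000000000000000000000000000000000000000000000000000000000000000000000000000000000000000000000)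
noncomputable def OL2_0 : Nat := (nat_lit 0x160010)
noncomputable def AL2_1 : Nat := (nat_lit 0)
noncomputable def A42_1 : Nat := (nat_lit 0)
noncomputable def IX2_1 : Nat := (nat_lit 0)
noncomputable def OL2_1 : Nat := (nat_lit 0)
noncomputable def AL2_2 : Nat := (nat_lit 0x3effe)
noncomputable def A42_2 : Nat := (nat_lit 0x16cba)
noncomputable def IX2_2 : Nat := (nat_lit 0x90000000000000000000000000800000000000070000000000000000000000000600000000000050000000000000000000000000000000000000040000000000000000000000000300000000000020000000000001000000000000000000000000000000000000000)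
noncomputable def OL2_2 : Nat := (nat_lit 0x200038006800b0014001c002800400060004)
noncomputable def AL2_3 : Nat := (nat_lit 0)
noncomputable def A42_3 : Nat := (nat_lit 0)
noncomputable def IX2_3 : Nat := (nat_lit 0)
noncomputable def OL2_3 : Nat := (nat_lit 0)
noncomputable def AL2_4 : Nat := (nat_lit 0x8083d716071c5687350469c0a)
noncomputable def A42_4 : Nat := (nat_lit 0x82d01003085400210440802)
noncomputable def IX2_4 : Nat := (nat_lit 0x110000000000000000000000000000000000000000000000000000000000000000000000000000100000000000000000000000000f000000000000e0000000000000000000000000d0000000000000000000000000000000000000000000000000000000000000000000000000000000000000000000000000000000c0000000000000000000000000000000000000000000000000000000000000000000000000000000000000000000000000000000000000000000000000000000000000000000000b000000000000a000000000000000000000000000000000000000000000000000000000000000090000000000000000000000000000000000000000000000000000000000000000800000000000000000000000007000000000000000000000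000060000000000000000000000000000000000000000000000000000000000000000000000000000000000000000000000000000000000000000000000000000000000000000000000000000000000000000000000005000000000000000000000000000000000000000000000000000000000000000040000000000000000000000000000000000000000000000000000000000000000000000000000030000000000000000000000000000000000000000000000000002000000000000000000000000000000000000000000000000000000000000000000000000000000000000000000100000000000000000000000000000000000000000000000000000000000000000000000000000000000000000000000000000000000000000000000000000000000000000000000)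
noncomputable def OL2_4 : Nat := (nat_lit 0xb60154029805200a0012001e803c006e00c8018002e0042007000b001200160004)
noncomputable def AL2_5 : Nat := (nat_lit 0)
noncomputable def A42_5 : Nat := (nat_lit 0)
noncomputable def IX2_5 : Nat := (nat_lit 0)
noncomputable def OL2_5 : Nat := (nat_lit 0)
noncomputable def TL2 : Tl := (Tl.cons (Tr.mk AL2_0 A42_0 IX2_0 OL2_0) (Tl.cons (Tr.mk AL2_1 A42_1 IX2_1 OL2_1) (Tl.cons (Tr.mk AL2_2 A42_2 IX2_2 OL2_2) (Tl.cons (Tr.mk AL2_3 A42_3 IX2_3 OL2_3) (Tl.cons (Tr.mk AL2_4 A42_4 IX2_4 OL2_4) (Tl.cons (Tr.mk AL2_5 A42_5 IX2_5 OL2_5) Tl.nil))))))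
noncomputable def ZL2_0 : Zl := (Zl.cons (nat_lit 0) (nat_lit 0) (nat_lit 0) (Zl.cons (nat_lit 0) (nat_lit 0) (nat_lit 0) (Zl.cons (nat_lit 5) (nat_lit 0) (nat_lit 3) (Zl.cons (nat_lit 0) (nat_lit 0) (nat_lit 0) (Zl.cons (nat_lit 3) (nat_lit 3) (nat_lit 2) (Zl.cons (nat_lit 0) (nat_lit 0) (nat_lit 0) Zl.nil))))))
noncomputable def ZZ2 : ZZ := (ZZ.cons ZL2_0 ZZ.nil)
def wf0_0 : wfC (nat_lit 52) (nat_lit 2) C0_0 = true := by decide +kernel
def pl0_0 : plCk (nat_lit 52) (nat_lit 2) (nat_lit 11) (nat_lit 5) (nat_lit 0) (nat_lit 2) (nat_lit 6) (nat_lit 4) (nat_lit 0) nl0 CL0 = true := by decide +kernel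
def wf0_1 : wfC (nat_lit 52) (nat_lit 2) C0_1 = true := by decide +kernel
def pl0_1 : plCk (nat_lit 52) (nat_lit 2) (nat_lit 11) (nat_lit 5) (nat_lit 0) (nat_lit 2) (nat_lit 6) (nat_lit 4) (nat_lit 1) nl0 CL0 = true := by decide +kernel
def wf0_2 : wfC (nat_lit 52) (nat_lit 2) C0_2 = true := by decide +kernel
def pl0_2 : plCk (nat_lit 52) (nat_lit 2) (nat_lit 11) (nat_lit 5) (nat_lit 0) (nat_lit 2) (nat_lit 6) (nat_lit 4) (nat_lit 2) nl0 CL0 = true := by decide +kernel
def wf0_3 : wfC (nat_lit 52) (nat_lit 2) C0_3 = true := by decide +kernel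
def pl0_3 : plCk (nat_lit 52) (nat_lit 2) (nat_lit 11) (nat_lit 5) (nat_lit 0) (nat_lit 2) (nat_lit 6) (nat_lit 4) (nat_lit 3) nl0 CL0 = true := by decide +kernel
def wf0_4 : wfC (nat_lit 52) (nat_lit 2) C0_4 = true := by decide +kernel
def pl0_4 : plCk (nat_lit 52) (nat_lit 2) (nat_lit 11) (nat_lit 5) (nat_lit 0) (nat_lit 2) (nat_lit 6) (nat_lit 4) (nat_lit 4) nl0 CL0 = true := by decide +kernel
def wf0_5 : wfC (nat_lit 52) (nat_lit 2) C0_5 = true := by decide +kernel
def pl0_5 : plCk (nat_lit 52) (nat_lit 2) (nat_lit 11) (nat_lit 5) (nat_lit 0) (nat_lit 2) (nat_lit 6) (nat_lit 4) (nat_lit 5) nl0 CL0 = true := by decide +kernel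
def ti0_0 : tileCk (nat_lit 52) (nat_lit 2) (nat_lit 1) (nat_lit 1) (nat_lit 38) (nat_lit 11) (nat_lit 6) ZL0_0 CL0 = true := by decide +kernel
def zl0_0 : zlOK (nat_lit 38) ZL0_0 = true := by decide +kernel
def tc0_0 : tiCov (nat_lit 1) (nat_lit 0) ZZ0 C0_0 = true := by decide +kernel
def tc0_1 : tiCov (nat_lit 1) (nat_lit 1) ZZ0 C0_1 = true := by decide +kernel
def tc0_2 : tiCov (nat_lit 1) (nat_lit 2) ZZ0 C0_2 = true := by decide +kernel
def tc0_3 : tiCov (nat_lit 1) (nat_lit 3) ZZ0 C0_3 = true := by decide +kernel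
def tc0_4 : tiCov (nat_lit 1) (nat_lit 4) ZZ0 C0_4 = true := by decide +kernel
def tc0_5 : tiCov (nat_lit 1) (nat_lit 5) ZZ0 C0_5 = true := by decide +kernel
def wf1_0 : wfC (nat_lit 22) (nat_lit 2) C1_0 = true := by decide +kernel
def rf1_0 : rfCk (nat_lit 52) (nat_lit 2) (nat_lit 22) (nat_lit 2) (nat_lit 9) (nat_lit 0) (nat_lit 0) TL1 CL0 CL1 = true := by decide +kernel
def st1_0_0 : starCk (nat_lit 22) (nat_lit 2) (nat_lit 1) (nat_lit 1) (nat_lit 3) (nat_lit 2) (nat_lit 1) C1_0 = true := by decide +kernel
def sc1_0 : stCov (nat_lit 0) (nat_lit 2) (Rl.cons (nat_lit 2) (nat_lit 3) Rl.nil) C1_0 = true := by decide +kernel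
def wf1_1 : wfC (nat_lit 22) (nat_lit 2) C1_1 = true := by decide +kernel
def rf1_1 : rfCk (nat_lit 52) (nat_lit 2) (nat_lit 22) (nat_lit 2) (nat_lit 9) (nat_lit 0) (nat_lit 1) TL1 CL0 CL1 = true := by decide +kernel
def st1_1_0 : starCk (nat_lit 22) (nat_lit 2) (nat_lit 1) (nat_lit 1) (nat_lit 3) (nat_lit 19) (nat_lit 256) C1_1 = true := by decide +kernel
def sc1_1 : stCov (nat_lit 2) (nat_lit 19) (Rl.cons (nat_lit 19) (nat_lit 3) Rl.nil) C1_1 = true := by decide +kernel
def wf1_2 : wfC (nat_lit 22) (nat_lit 2) C1_2 = true := by decide +kernel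
def rf1_2 : rfCk (nat_lit 52) (nat_lit 2) (nat_lit 22) (nat_lit 2) (nat_lit 9) (nat_lit 0) (nat_lit 2) TL1 CL0 CL1 = true := by decide +kernel
def st1_2_0 : starCk (nat_lit 22) (nat_lit 2) (nat_lit 1) (nat_lit 1) (nat_lit 4) (nat_lit 5) (nat_lit 1) C1_2 = true := by decide +kernel
def sc1_2 : stCov (nat_lit 0) (nat_lit 5) (Rl.cons (nat_lit 5) (nat_lit 4) Rl.nil) C1_2 = true := by decide +kernel
def wf1_4 : wfC (nat_lit 22) (nat_lit 2) C1_4 = true := by decide +kernel
def rf1_4 : rfCk (nat_lit 52) (nat_lit 2) (nat_lit 22) (nat_lit 2) (nat_lit 9) (nat_lit 0) (nat_lit 4) TL1 CL0 CL1 = true := by decide +kernel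
def st1_4_0 : starCk (nat_lit 22) (nat_lit 2) (nat_lit 1) (nat_lit 1) (nat_lit 9) (nat_lit 21) (nat_lit 16) C1_4 = true := by decide +kernel
def sc1_4 : stCov (nat_lit 1) (nat_lit 21) (Rl.cons (nat_lit 21) (nat_lit 9) Rl.nil) C1_4 = true := by decide +kernel
def wf2_0 : wfC (nat_lit 6) (nat_lit 2) C2_0 = true := by decide +kernel
def rf2_0 : rfCk (nat_lit 22) (nat_lit 2) (nat_lit 6) (nat_lit 2) (nat_lit 9) (nat_lit 0) (nat_lit 0) TL2 CL1 CL2 = true := by decide +kernel
def wf2_2 : wfC (nat_lit 6) (nat_lit 2) C2_2 = true := by decide +kernel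
def rf2_2 : rfCk (nat_lit 22) (nat_lit 2) (nat_lit 6) (nat_lit 2) (nat_lit 9) (nat_lit 0) (nat_lit 2) TL2 CL1 CL2 = true := by decide +kernel
def wf2_4 : wfC (nat_lit 6) (nat_lit 2) C2_4 = true := by decide +kernel
def rf2_4 : rfCk (nat_lit 22) (nat_lit 2) (nat_lit 6) (nat_lit 2) (nat_lit 9) (nat_lit 0) (nat_lit 4) TL2 CL1 CL2 = true := by decide +kernel
def ti2_0 : tileCk (nat_lit 6) (nat_lit 2) (nat_lit 1) (nat_lit 1) (nat_lit 5) (nat_lit 11) (nat_lit 6) ZL2_0 CL2 = true := by decide +kernel
def zl2_0 : zlOK (nat_lit 5) ZL2_0 = true := by decide +kernel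
def tc2_0 : tiCov (nat_lit 1) (nat_lit 0) ZZ2 C2_0 = true := by decide +kernel
def tc2_2 : tiCov (nat_lit 1) (nat_lit 2) ZZ2 C2_2 = true := by decide +kernel
def tc2_4 : tiCov (nat_lit 1) (nat_lit 4) ZZ2 C2_4 = true := by decide +kernel
def de2_0 : deadCk (nat_lit 6) (nat_lit 2) C2_0 = true := by decide +kernel
def de2_2 : deadCk (nat_lit 6) (nat_lit 2) C2_2 = true := by decide +kernel
def de2_4 : deadCk (nat_lit 6) (nat_lit 2) C2_4 = true := by decide +kernel
def sc0_0 : stCov (nat_lit 0) (nat_lit 0) (Rl.cons (nat_lit 0) (nat_lit 21) Rl.nil) C0_0 = true := by decide +kernel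
def sc0_1 : stCov (nat_lit 0) (nat_lit 0) (Rl.cons (nat_lit 0) (nat_lit 58) Rl.nil) C0_1 = true := by decide +kernel
def sc0_2 : stCov (nat_lit 0) (nat_lit 0) (Rl.cons (nat_lit 0) (nat_lit 24) Rl.nil) C0_2 = true := by decide +kernel
def sc0_3 : stCov (nat_lit 0) (nat_lit 0) (Rl.cons (nat_lit 0) (nat_lit 26) Rl.nil) C0_3 = true := by decide +kernel
def sc0_4 : stCov (nat_lit 0) (nat_lit 0) (Rl.cons (nat_lit 0) (nat_lit 236) Rl.nil) C0_4 = true := by decide +kernel
def sc0_5 : stCov (nat_lit 0) (nat_lit 0) (Rl.cons (nat_lit 0) (nat_lit 41) Rl.nil) C0_5 = true := by decide +kernel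
def wf1_3 : wfC (nat_lit 22) (nat_lit 2) C1_3 = true := by decide +kernel
def wf1_5 : wfC (nat_lit 22) (nat_lit 2) C1_5 = true := by decide +kernel
def rf1_3 : rfCk (nat_lit 52) (nat_lit 2) (nat_lit 22) (nat_lit 2) (nat_lit 9) (nat_lit 0) (nat_lit 3) TL1 CL0 CL1 = true := by decide +kernel
def rf1_5 : rfCk (nat_lit 52) (nat_lit 2) (nat_lit 22) (nat_lit 2) (nat_lit 9) (nat_lit 0) (nat_lit 5) TL1 CL0 CL1 = true := by decide +kernel
def zl1_0 : zlOK (nat_lit 102) ZL1_0 = true := by decide +kernel
def sc1_3 : stCov (nat_lit 0) (nat_lit 0) Rl.nil C1_3 = true := by decide +kernel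
def sc1_5 : stCov (nat_lit 0) (nat_lit 0) Rl.nil C1_5 = true := by decide +kernel
def tc1_0 : tiCov (nat_lit 1) (nat_lit 0) ZZ1 C1_0 = true := by decide +kernel
def tc1_1 : tiCov (nat_lit 1) (nat_lit 1) ZZ1 C1_1 = true := by decide +kernel
def tc1_2 : tiCov (nat_lit 1) (nat_lit 2) ZZ1 C1_2 = true := by decide +kernel
def tc1_3 : tiCov (nat_lit 1) (nat_lit 3) ZZ1 C1_3 = true := by decide +kernel
def tc1_4 : tiCov (nat_lit 1) (nat_lit 4) ZZ1 C1_4 = true := by decide +kernel
def tc1_5 : tiCov (nat_lit 1) (nat_lit 5) ZZ1 C1_5 = true := by decide +kernel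
def wf2_1 : wfC (nat_lit 6) (nat_lit 2) C2_1 = true := by decide +kernel
def wf2_3 : wfC (nat_lit 6) (nat_lit 2) C2_3 = true := by decide +kernel
def wf2_5 : wfC (nat_lit 6) (nat_lit 2) C2_5 = true := by decide +kernel
def rf2_1 : rfCk (nat_lit 22) (nat_lit 2) (nat_lit 6) (nat_lit 2) (nat_lit 9) (nat_lit 0) (nat_lit 1) TL2 CL1 CL2 = true := by decide +kernel
def rf2_3 : rfCk (nat_lit 22) (nat_lit 2) (nat_lit 6) (nat_lit 2) (nat_lit 9) (nat_lit 0) (nat_lit 3) TL2 CL1 CL2 = true := by decide +kernel
def rf2_5 : rfCk (nat_lit 22) (nat_lit 2) (nat_lit 6) (nat_lit 2) (nat_lit 9) (nat_lit 0) (nat_lit 5) TL2 CL1 CL2 = true := by decide +kernel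
def sc2_0 : stCov (nat_lit 0) (nat_lit 0) (Rl.cons (nat_lit 0) (nat_lit 2) Rl.nil) C2_0 = true := by decide +kernel
def sc2_1 : stCov (nat_lit 0) (nat_lit 0) Rl.nil C2_1 = true := by decide +kernel
def sc2_2 : stCov (nat_lit 0) (nat_lit 0) (Rl.cons (nat_lit 0) (nat_lit 10) Rl.nil) C2_2 = true := by decide +kernel
def sc2_3 : stCov (nat_lit 0) (nat_lit 0) Rl.nil C2_3 = true := by decide +kernel
def sc2_4 : stCov (nat_lit 0) (nat_lit 0) (Rl.cons (nat_lit 0) (nat_lit 18) Rl.nil) C2_4 = true := by decide +kernel
def sc2_5 : stCov (nat_lit 0) (nat_lit 0) Rl.nil C2_5 = true := by decide +kernel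
def tc2_1 : tiCov (nat_lit 1) (nat_lit 1) ZZ2 C2_1 = true := by decide +kernel
def tc2_3 : tiCov (nat_lit 1) (nat_lit 3) ZZ2 C2_3 = true := by decide +kernel
def tc2_5 : tiCov (nat_lit 1) (nat_lit 5) ZZ2 C2_5 = true := by decide +kernel
def de2_1 : deadCk (nat_lit 6) (nat_lit 2) C2_1 = true := by decide +kernel
def de2_3 : deadCk (nat_lit 6) (nat_lit 2) C2_3 = true := by decide +kernel
def de2_5 : deadCk (nat_lit 6) (nat_lit 2) C2_5 = true := by decide +kernel

end Pool.Agent.NNr.R11_4_11_13
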